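import Pool.Agent.MP10a207.Main
import Pool.Agent.MP10a207.ModE1
import Pool.Agent.MP10a207.ModE2

/-!
# Constant-factor approximation of maximum `r`-independent sets in continuous graphs

For every rational `r > 0` there is a constant-factor approximation in polynomial time if
`r ≤ 1`; for `r > 1` there is one (with any given constant `c ∈ (0, 1]`) if and only if `P = NP`.
In particular the assertion of the question is equivalent to `P = NP`.

Polynomial time is Mathlib's `Turing.TM2ComputableInPolyTime`.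
-/

namespace Pool.Agent.Results.MP_10a207_lc.Dichotomy

open Pool.Agent.MP10a207

/-- **Main theorem.** -/
theorem result :
    ((∀ r : ℚ, 0 < r → ∃ c : ℝ, 0 < c ∧ RISApprox r c) ↔ PEqNP) ∧
    (∀ r : ℚ, 0 < r → r ≤ 1 → ∃ c : ℝ, 0 < c ∧ RISApprox r c) ∧
    (∀ r : ℚ, 1 < r → ∀ c : ℝ, 0 < c → c ≤ 1 → (RISApprox r c ↔ PEqNP)) := by
  refine ⟨⟨fun h => ?_, fun h r hr => ⟨1, one_pos, ris_of_pEqNP r hr h⟩⟩, ?_, ?_⟩
  · obtain ⟨c, hc, hr⟩ := h 2 (by norm_num)
    exact pEqNP_of_ris 2 (by norm_num) c hc hr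
  · intro r hr hr1
    by_cases h : r ≤ 1 / 2
    · exact modE1 r hr h
    · exact ⟨1 / 3, by norm_num, modE2 r (not_le.1 h) hr1⟩
  · intro r hr c hc hc1
    exact ⟨pEqNP_of_ris r hr c hc, fun h => ris_mono r (ris_of_pEqNP r (by linarith) h) hc1⟩

end Pool.Agent.Results.MP_10a207_lc.Dichotomy
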